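import Pool.Agent.H13.DigitFrob.Basic

namespace Pool.Agent.Results.MP_d7e141_nt.LinearBound

open H13.DigitFrob

/-- `F(b,n) ≤ m - 2`, with equality iff `b ≡ -1 (mod m)`;
`m` is the largest divisor of `n` coprime to `b`. -/
theorem result (b n m : ℕ) (h : Admissible b n) (hmn : m ∣ n) (hco : Nat.Coprime m b)
    (hk : ∃ k, n ∣ m * b ^ k) :
    IsGreatest {u : ℕ | 0 < u ∧ u ∉ Out b n} (F b n) ∧
    F b n ≤ m - 2 ∧ (F b n = m - 2 ↔ m ∣ b + 1) := by
  obtain ⟨hb, hred, hcm, hm3, hodd, hD1, hDmod, h1out, hupp, hgr⟩ := setup h hmn hco hk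
  have hF : F b n = F b m := by unfold F; rw [hred]
  have hm0 : 0 < m := by omega
  have hm1 : 1 < m := by omega
  have hle : ∀ v, (∀ u, v < u → u ∈ Out b m) → F b n ≤ v := by
    intro v hv
    by_contra hcon
    have := hgr.1.2
    rw [hred] at this
    exact this (hv _ (by omega))
  refine ⟨hgr, hle _ hupp, ?_, ?_⟩
  · intro he
    by_contra hnd
    have h1 := hgr.1
    rw [he, hred] at h1
    exact h1.2 (upper_lin hb hD1 hDmod hm1 hcm h1.1 (Or.inr ⟨rfl, hnd⟩))
  · intro hd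
    rw [hF]
    exact F_eq (by omega) (lower_lin hb hodd hm3 hd) hupp

end Pool.Agent.Results.MP_d7e141_nt.LinearBound
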