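import Pool.Agent.H13.DigitFrob.Basic
import Pool.Agent.H13.DigitFrob.Thue

namespace Pool.Agent.Results.MP_d7e141_nt.QuadraticOrders

open H13.DigitFrob

/-- `F(b,n)` when `b^2+1`, `b^2+b+1` or `b^2-b+1` is divisible by `m`, the largest divisor of
`n` coprime to `b`. -/
theorem result (b n m : ℕ) (h : Admissible b n) (hmn : m ∣ n) (hco : Nat.Coprime m b)
    (hk : ∃ k, n ∣ m * b ^ k) :
    IsGreatest {u : ℕ | 0 < u ∧ u ∉ Out b n} (F b n) ∧
    (m ∣ b ^ 2 + 1 → (∃ x y : ℕ, m = x ^ 2 + y ^ 2 ∧ m ∣ x + y * b) ∧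
      ∀ x y : ℕ, m = x ^ 2 + y ^ 2 → m ∣ x + y * b → F b n = x + y - 2) ∧
    (m ∣ b ^ 2 + b + 1 → (∃ x y : ℕ, m + x * y = x ^ 2 + y ^ 2 ∧ m ∣ x + y * b) ∧
      ∀ x y : ℕ, m + x * y = x ^ 2 + y ^ 2 → m ∣ x + y * b →
        F b n = max (x + y) (max (2 * x - y) (2 * y - x)) - 3) ∧
    (m ∣ b ^ 2 - b + 1 → F b n = 1) := by
  obtain ⟨hb, hred, hcm, hm3, hodd, hD1, hDmod, h1out, hupp, hgr⟩ := setup h hmn hco hk
  have hF : F b n = F b m := by unfold F; rw [hred]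
  have hm0 : 0 < m := by omega
  have hm1 : 1 < m := by omega
  have hle : ∀ v, (∀ u, v < u → u ∈ Out b m) → F b n ≤ v := by
    intro v hv
    by_contra hcon
    have := hgr.1.2
    rw [hred] at this
    exact this (hv _ (by omega))
  refine ⟨hgr, fun hm4 => ⟨rep4 hm4 hodd hm3, ?_⟩,
    fun hm3' => ⟨rep3 (by omega) hm3' hcm hodd hm3, ?_⟩, ?_⟩
  · intro x y hxy hd
    have hpar : ¬ (2 : ℕ) ∣ x + y := by
      intro h
      apply hodd
      rw [hxy]
      have e1 : x ^ 2 + y ^ 2 + 2 * (x * y) = (x + y) * (x + y) := by ring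
      have e2 : 2 ∣ x ^ 2 + y ^ 2 + 2 * (x * y) := by rw [e1]; exact dvd_mul_of_dvd_left h _
      exact (Nat.dvd_add_left (dvd_mul_right _ _)).1 e2
    have hge : 3 ≤ x + y := by
      by_contra hcon
      have : x + y = 1 := by omega
      have hx : (x = 0 ∧ y = 1) ∨ (x = 1 ∧ y = 0) := by omega
      rcases hx with ⟨rfl, rfl⟩ | ⟨rfl, rfl⟩ <;> omega
    rw [hF]
    apply F_eq (by omega)
    · exact lower4 hb hm0 hodd hm4 hxy hd
    · intro u hu
      exact above_odd hb hD1 hDmod hm4 (mem4 hb hD1 hDmod (by omega) hd) hpar hu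
  · intro x y hxy hd
    have h3m : ¬ 3 ∣ m := by
      intro h3
      have h4 : 3 ∣ b ^ 2 + b + 1 := h3.trans hm3'
      have h5 : 3 ∣ b - 1 := by
        obtain ⟨q, r, rfl, hr⟩ : ∃ q r, b = 3 * q + r ∧ r < 3 :=
          ⟨b / 3, b % 3, (Nat.div_add_mod b 3).symm, Nat.mod_lt _ (by omega)⟩
        have h6 : 3 ∣ 3 * (3 * q ^ 2 + 2 * q * r + q) + (r ^ 2 + r + 1) := by
          convert h4 using 1; ring
        have h7 : 3 ∣ r ^ 2 + r + 1 := (Nat.dvd_add_right (dvd_mul_right _ _)).1 h6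
        have hc : r = 0 ∨ r = 1 ∨ r = 2 := by omega
        rcases hc with rfl | rfl | rfl
        · norm_num at h7
        · omega
        · norm_num at h7
      have : 3 ∣ Nat.gcd (b - 1) m := Nat.dvd_gcd h5 h3
      rw [hcm] at this
      omega
    have h3 : ¬ 3 ∣ x + y := by
      intro h3
      apply h3m
      have e1 : m + 3 * (x * y) = (x + y) * (x + y) := by
        calc m + 3 * (x * y) = (m + x * y) + 2 * (x * y) := by ring
          _ = (x ^ 2 + y ^ 2) + 2 * (x * y) := by rw [hxy]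
          _ = _ := by ring
      have e2 : 3 ∣ m + 3 * (x * y) := by rw [e1]; exact dvd_mul_of_dvd_left h3 _
      exact (Nat.dvd_add_left (dvd_mul_right _ _)).1 e2
    have hge : 4 ≤ x + y := by
      by_contra hcon
      have h5 : x + y = 1 ∨ x + y = 2 := by omega
      have hc : (x = 0 ∧ y = 1) ∨ (x = 1 ∧ y = 0) ∨ (x = 0 ∧ y = 2) ∨ (x = 1 ∧ y = 1) ∨
        (x = 2 ∧ y = 0) := by omega
      rcases hc with ⟨rfl, rfl⟩ | ⟨rfl, rfl⟩ | ⟨rfl, rfl⟩ | ⟨rfl, rfl⟩ | ⟨rfl, rfl⟩ <;> omega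
    have hmax : x + y ≤ max (x + y) (max (2 * x - y) (2 * y - x)) := le_max_left _ _
    rw [hF]
    apply F_eq (by omega)
    · exact lower3 hb hm0 hm3' hxy hd h3 (by omega)
    · intro u hu
      exact upper3 hb hcm hm3' hd h3 (by omega) (by omega)
  · intro h6
    have hb2 : b ≤ b ^ 2 := by nlinarith
    have hz : ((b ^ 2 - b + 1 : ℕ) : ℤ) = (b : ℤ) ^ 2 - b + 1 := by
      rw [Nat.cast_add, Nat.cast_sub hb2]; push_cast; ring
    have h3 : m ∣ b ^ 3 + 1 := h6.trans ⟨b + 1, by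
      have : ((b ^ 3 + 1 : ℕ) : ℤ) = ((b ^ 2 - b + 1 : ℕ) : ℤ) * ((b + 1 : ℕ) : ℤ) := by
        rw [hz]; push_cast; ring
      exact_mod_cast this⟩
    have h4 : m ∣ 1 + b ^ 4 + b ^ 2 := h6.trans ⟨b ^ 2 + b + 1, by
      have : ((1 + b ^ 4 + b ^ 2 : ℕ) : ℤ)
          = ((b ^ 2 - b + 1 : ℕ) : ℤ) * ((b ^ 2 + b + 1 : ℕ) : ℤ) := by
        rw [hz]; push_cast; ring
      exact_mod_cast this⟩
    have hmem : 3 ∈ Out b m := by
      have := out_of_list hb hD1 hDmod [0, 4, 2] (by simp) (by simpa [add_assoc] using h4)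
      simpa using this
    rw [hF]
    apply F_eq one_pos h1out
    intro u hu
    exact above_odd hb hD1 hDmod h3 hmem (by norm_num) (by omega)


end Pool.Agent.Results.MP_d7e141_nt.QuadraticOrders
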