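import Pool.Agent.H13.DigitFrob.Basic

namespace Pool.Agent.Results.MP_d7e141_nt.RepunitBound

open H13.DigitFrob

/-- The bound by the order of `b`, and its sharpness for repunits;
`m` is the largest divisor of `n` coprime to `b`. -/
theorem result (b n m : ℕ) (h : Admissible b n) (hmn : m ∣ n) (hco : Nat.Coprime m b)
    (hk : ∃ k, n ∣ m * b ^ k) :
    IsGreatest {u : ℕ | 0 < u ∧ u ∉ Out b n} (F b n) ∧
    (∀ d : ℕ, 1 ≤ d → m ∣ b ^ d - 1 → Nat.Coprime d (b - 1) → F b n ≤ (d - 1) * (b - 1)) ∧
    (∀ d : ℕ, m * (b - 1) = b ^ d - 1 → F b n = (d - 1) * (b - 1)) := by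
  obtain ⟨hb, hred, hcm, hm3, hodd, hD1, hDmod, h1out, hupp, hgr⟩ := setup h hmn hco hk
  have hF : F b n = F b m := by unfold F; rw [hred]
  have hm0 : 0 < m := by omega
  have hm1 : 1 < m := by omega
  have hle : ∀ v, (∀ u, v < u → u ∈ Out b m) → F b n ≤ v := by
    intro v hv
    by_contra hcon
    have := hgr.1.2
    rw [hred] at this
    exact this (hv _ (by omega))
  refine ⟨hgr, ?_, ?_⟩
  · intro d hd1 hd hcd
    have hmod : b ^ d ≡ 1 [MOD m] :=
      ((Nat.modEq_iff_dvd' (Nat.one_le_pow _ _ (by omega))).2 hd).symm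
    exact hle _ (fun u hu => upper_order hb hd1 hmod hcm hcd hu)
  · intro d hd
    have hg := geom hb d
    have hpow1 : 1 ≤ b ^ d := Nat.one_le_pow _ _ (by omega)
    have hmR : m = ∑ i ∈ Finset.range d, b ^ i := by
      have : m * (b - 1) = (∑ i ∈ Finset.range d, b ^ i) * (b - 1) := by omega
      exact Nat.eq_of_mul_eq_mul_right (by omega) this
    have hd2 : 2 ≤ d := by
      by_contra hcon
      have : d = 0 ∨ d = 1 := by omega
      rcases this with rfl | rfl
      · simp at hmR; omega
      · simp at hmR; omega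
    have hdvd : m ∣ b ^ d - 1 := ⟨b - 1, hd.symm⟩
    have hmod : b ^ d ≡ 1 [MOD m] := ((Nat.modEq_iff_dvd' hpow1).2 hdvd).symm
    have hcd : Nat.Coprime d (b - 1) := by
      have h1 : m ≡ d [MOD (b - 1)] := by
        rw [hmR]
        have hb1 : b ≡ 1 [MOD (b - 1)] :=
          ((Nat.modEq_iff_dvd' (by omega : 1 ≤ b)).2 (dvd_refl _)).symm
        have h2 : ∀ d : ℕ, ∑ i ∈ Finset.range d, b ^ i ≡ d [MOD (b - 1)] := by
          intro d
          induction d with
          | zero => simp; rfl
          | succ d ih =>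
            rw [Finset.sum_range_succ]
            have := ih.add (hb1.pow d)
            simpa using this
        exact h2 d
      have h3 : Nat.gcd m (b - 1) = Nat.gcd d (b - 1) := h1.gcd_eq
      rw [Nat.Coprime, ← h3, Nat.gcd_comm]
      exact hcm
    rw [hF]
    apply F_eq
    · exact Nat.mul_pos (by omega) (by omega)
    · have := lower_repunit hb (by omega) hcd
      rwa [← hmR] at this
    · intro u hu
      exact upper_order hb (by omega) hmod hcm hcd hu

end Pool.Agent.Results.MP_d7e141_nt.RepunitBound
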