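import Pool.Agent.H13.DigitFrob.Basic
import Pool.Agent.H13.DigitFrob.IndexTwo

namespace Pool.Agent.Results.MP_d7e141_nt.SquaresGenerated

open H13.DigitFrob

/-- `F(b,n)` when the largest divisor of `n` coprime to `b` is a prime `p ≥ 7` and the powers of
`b` contain all the nonzero squares mod `p`. -/
theorem result (b n p : ℕ) (h : Admissible b n) (hp : p.Prime) (hp7 : 7 ≤ p) (hpb : ¬ p ∣ b)
    (hpn : p ∣ n) (hk : ∃ k, n ∣ p * b ^ k)
    (hsq : ∀ x : ℕ, ¬ p ∣ x → ∃ e : ℕ, b ^ e ≡ x ^ 2 [MOD p]) :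
    IsGreatest {u : ℕ | 0 < u ∧ u ∉ Out b n} (F b n) ∧
    ((∃ e : ℕ, p ∣ b ^ e + 1) → F b n = 1) ∧
    ((¬ ∃ e : ℕ, p ∣ b ^ e + 1) → F b n = 2) := by
  have hco : Nat.Coprime p b := (Nat.Prime.coprime_iff_not_dvd hp).2 hpb
  obtain ⟨hb, hred, hcm, hm3, hodd, hD1, hDmod, h1out, hupp, hgr⟩ := setup h hpn hco hk
  have hF : F b n = F b p := by unfold F; rw [hred]
  have : Fact p.Prime := ⟨hp⟩
  have hsq' : ∀ x : ZMod p, x ≠ 0 → ∃ e : ℕ, (b : ZMod p) ^ e = x ^ 2 := by
    intro x hx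
    have h1 : ¬ p ∣ x.val := by
      intro h2
      apply hx
      have h3 := (ZMod.natCast_eq_zero_iff x.val p).2 h2
      rwa [ZMod.natCast_zmod_val] at h3
    obtain ⟨e, he⟩ := hsq x.val h1
    refine ⟨e, ?_⟩
    have h2 := (ZMod.natCast_eq_natCast_iff _ _ _).2 he
    push_cast at h2
    rwa [ZMod.natCast_zmod_val] at h2
  have h1ne : (1 : ZMod p) ≠ 0 := one_ne_zero
  have h2ne : (2 : ZMod p) ≠ 0 := by
    intro h2
    have h3 : ((2 : ℕ) : ZMod p) = 0 := by exact_mod_cast h2
    rw [ZMod.natCast_eq_zero_iff] at h3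
    have := Nat.le_of_dvd (by norm_num) h3
    omega
  obtain ⟨x, y, hx, hy, hxy⟩ := two_squares hp7 (t := (1 : ZMod p)) h1ne
  obtain ⟨z, w, hz, hw, hzw⟩ := two_squares hp7 (t := (-1 : ZMod p)) (neg_ne_zero.2 h1ne)
  obtain ⟨r, s', hr, hs', hrs⟩ := two_squares hp7 (t := (-2 : ZMod p)) (neg_ne_zero.2 h2ne)
  have h3 : 3 ∈ Out b p := by
    have := out_of_squares hb hD1 hDmod hsq' [1, z, w] (by simp) (by simp [hz, hw])
      (by simp only [List.map_cons, List.map_nil, List.sum_cons, List.sum_nil, add_zero]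
          rw [← hzw]; ring)
    simpa using this
  have h4 : 4 ∈ Out b p := by
    have := out_of_squares hb hD1 hDmod hsq' [x, y, z, w] (by simp) (by simp [hx, hy, hz, hw])
      (by simp only [List.map_cons, List.map_nil, List.sum_cons, List.sum_nil, add_zero]
          rw [← hzw, ← add_assoc, ← hxy]; ring)
    simpa using this
  have h5 : 5 ∈ Out b p := by
    have := out_of_squares hb hD1 hDmod hsq' [1, x, y, r, s'] (by simp)
      (by simp [hx, hy, hr, hs'])
      (by simp only [List.map_cons, List.map_nil, List.sum_cons, List.sum_nil, add_zero]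
          rw [← hrs, ← add_assoc (x ^ 2), ← hxy]; ring)
    simpa using this
  refine ⟨hgr, ?_, ?_⟩
  · rintro ⟨e, he⟩
    rw [hF]
    apply F_eq one_pos h1out
    intro u hu
    exact above_odd hb hD1 hDmod he h3 (by norm_num) (by omega)
  · intro hno
    rw [hF]
    apply F_eq two_pos
    · intro h2
      obtain ⟨l, _, hlen, hdvd⟩ := list_of_out hb h2
      obtain ⟨e, f, rfl⟩ := List.length_eq_two.1 hlen
      have hd : p ∣ b ^ e + b ^ f := by simpa using hdvd
      have key : ∀ e f : ℕ, e ≤ f → p ∣ b ^ e + b ^ f → False := by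
        intro e f hef hd
        obtain ⟨g, rfl⟩ : ∃ g, f = e + g := ⟨f - e, by omega⟩
        have h6 : b ^ e + b ^ (e + g) = b ^ e * (b ^ g + 1) := by rw [pow_add]; ring
        rw [h6] at hd
        rcases hp.dvd_mul.1 hd with h7 | h7
        · exact hpb (hp.dvd_of_dvd_pow h7)
        · exact hno ⟨g, h7⟩
      rcases Nat.le_total e f with hef | hef
      · exact key e f hef hd
      · exact key f e hef (by rwa [add_comm])
    · intro u hu
      exact all_from_345 hb hD1 hDmod h3 h4 h5 (by omega)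

end Pool.Agent.Results.MP_d7e141_nt.SquaresGenerated
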